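import Pool.Agent.helper62.DP7.Spec

set_option autoImplicit false

namespace Pool.Agent.helper62.DP7

open Finset

theorem LST : LST_stmt := by
  intro V W G R L hC A B z hz f hf
  classical
  have hbad : ∀ c ∈ (L z).filter (fun c => ∃ x ∈ qn G A B z, R (f x) c),
      ∃ x, x ∈ qn G A B z ∧ R (f x) c := by
    intro c hc
    rw [Finset.mem_filter] at hc
    obtain ⟨x, hx, hR⟩ := hc.2
    exact ⟨x, hx, hR⟩
  choose g hg1 hg2 using hbad
  have hcard : ((L z).filter (fun c => ∃ x ∈ qn G A B z, R (f x) c)).card ≤ (qn G A B z).card := by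
    have h1 : ((L z).filter (fun c => ∃ x ∈ qn G A B z, R (f x) c)).attach.card ≤
        (qn G A B z).card := by
      refine Finset.card_le_card_of_injOn (fun c => g c.1 c.2) ?_ ?_
      · intro c _
        exact hg1 c.1 c.2
      · intro c _ c' _ hcc
        have hx := hg1 c.1 c.2
        have hxB : g c.1 c.2 ∈ B := (mem_qn.1 hx).1
        have hne : g c.1 c.2 ≠ z := fun h => hz (h ▸ hxB)
        have hR1 := hg2 c.1 c.2
        have hR2 := hg2 c'.1 c'.2
        have hcc' : g c.1 c.2 = g c'.1 c'.2 := hcc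
        rw [← hcc'] at hR2
        have hcm := (Finset.mem_filter.1 c.2).1
        have hcm' := (Finset.mem_filter.1 c'.2).1
        exact Subtype.ext (hC.mat _ z hne _ (hf _ hxB) _ hcm _ hcm' hR1 hR2)
    rwa [Finset.card_attach] at h1
  refine ⟨(L z).filter (fun c => ¬ ∃ x ∈ qn G A B z, R (f x) c), Finset.filter_subset _ _, ?_, ?_⟩
  · have h2 := Finset.card_filter_add_card_filter_not
      (s := L z) (fun c => ∃ x ∈ qn G A B z, R (f x) c)
    have h3 := hC.big z
    omega
  · intro c hc x hx hR
    exact (Finset.mem_filter.1 hc).2 ⟨x, hx, hR⟩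

end Pool.Agent.helper62.DP7
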